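import Pool.Agent.Q173.KS.Stm

/-!
# Project KS, job FINAL: the asymptotic form of the bound
-/

set_option autoImplicit false

namespace Pool.Agent.Q58.KS

open Pool.Agent.Q173.KS Finset Filter

lemma log_bound (n : ℕ) (hn : 2 ≤ n) :
    ((Nat.log 2 n : ℝ) + 1) ≤ (2 / Real.log 2) * Real.log n := by
  have h1 : (Nat.log 2 n : ℝ) ≤ Real.logb 2 n := by
    have := Real.natLog_le_logb n 2
    exact_mod_cast this
  have h2 : (1 : ℝ) ≤ (Nat.log 2 n : ℝ) := by
    have : 1 ≤ Nat.log 2 n := Nat.log_pos (by norm_num) hn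
    exact_mod_cast this
  have h4 : (2 / Real.log 2) * Real.log n = 2 * Real.logb 2 n := by
    rw [Real.logb]; ring
  rw [h4]; linarith

theorem final (hBOUND : S_BOUND) (hPROB : S_PROB) : S_FINAL := by
  intro k hk
  obtain ⟨C, hC⟩ := hBOUND k hk
  have key : ∀ n : ℕ, 2 ≤ n → k ≤ n → (lengths k n).Nonempty ∧
      (Uall k n : ℝ) ≤ (C * (2 / Real.log 2) ^ (Nat.log 2 k + 1))
        * (n * Real.log n ^ (Nat.log 2 k + 1)) := by
    intro n hn hkn
    obtain ⟨l, hl, hlm⟩ := hPROB k n _ hkn (hC n)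
    refine ⟨⟨l, hl⟩, ?_⟩
    have h1 : Uall k n ≤ C * (n * (Nat.log 2 n + 1) ^ (Nat.log 2 k + 1)) :=
      (Nat.sInf_le hl).trans hlm
    have h2 : (Uall k n : ℝ)
        ≤ (C : ℝ) * (n * ((Nat.log 2 n : ℝ) + 1) ^ (Nat.log 2 k + 1)) := by
      exact_mod_cast h1
    have h3 := log_bound n hn
    have h4 : ((Nat.log 2 n : ℝ) + 1) ^ (Nat.log 2 k + 1)
        ≤ ((2 / Real.log 2) * Real.log n) ^ (Nat.log 2 k + 1) :=
      pow_le_pow_left₀ (by positivity) h3 _
    calc (Uall k n : ℝ)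
        ≤ (C : ℝ) * (n * ((Nat.log 2 n : ℝ) + 1) ^ (Nat.log 2 k + 1)) := h2
      _ ≤ (C : ℝ) * (n * ((2 / Real.log 2) * Real.log n) ^ (Nat.log 2 k + 1)) := by gcongr
      _ = _ := by rw [mul_pow]; ring
  refine ⟨⟨_, key⟩, ?_⟩
  intro ε hε
  have h5 : (fun n : ℕ => (Uall k n : ℝ)) =O[atTop]
      (fun n : ℕ => (n : ℝ) * Real.log n ^ (Nat.log 2 k + 1)) := by
    refine Asymptotics.IsBigO.of_bound ((C * (2 / Real.log 2) ^ (Nat.log 2 k + 1))) ?_
    filter_upwards [eventually_ge_atTop (max 2 k)] with n hn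
    have hn2 : 2 ≤ n := (le_max_left _ _).trans hn
    have hnk : k ≤ n := (le_max_right _ _).trans hn
    have h := (key n hn2 hnk).2
    have hlog : 0 ≤ Real.log n := Real.log_natCast_nonneg n
    rw [Real.norm_of_nonneg (by positivity), Real.norm_of_nonneg (by positivity)]
    exact h
  refine h5.trans ?_
  have h6 : (fun x : ℝ => Real.log x ^ ((Nat.log 2 k + 1 : ℕ) : ℝ)) =o[atTop]
      fun x : ℝ => x ^ ε := isLittleO_log_rpow_rpow_atTop _ hε
  have h7 := h6.isBigO.comp_tendsto (tendsto_natCast_atTop_atTop (R := ℝ))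
  have h8 : (fun n : ℕ => (n : ℝ) * Real.log n ^ (Nat.log 2 k + 1)) =O[atTop]
      (fun n : ℕ => (n : ℝ) * (n : ℝ) ^ ε) := by
    refine (Asymptotics.isBigO_refl (fun n : ℕ => (n : ℝ)) atTop).mul ?_
    refine h7.congr_left ?_
    intro n
    simp only [Function.comp]
    rw [Real.rpow_natCast]
  refine h8.congr' EventuallyEq.rfl ?_
  filter_upwards [eventually_gt_atTop 0] with n hn
  have hn' : (0 : ℝ) < n := by exact_mod_cast hn
  rw [Real.rpow_add hn', Real.rpow_one]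

end Pool.Agent.Q58.KS
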